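import Pool.Agent.H10.GM.Targets1

/-!
# A complete minor contains a grid
-/

set_option autoImplicit false

namespace Pool.Agent.H48.GM

open Pool.Agent.H55.GW Pool.Agent.H10.GM

theorem idx_lt {r i j : ℕ} (hi : i < r) (hj : j < r) : i * r + j < r * r := by
  calc i * r + j < i * r + r := by omega
    _ = (i + 1) * r := by ring
    _ ≤ r * r := Nat.mul_le_mul_right r hi

theorem idx_inj {r i j i' j' : ℕ} (hj : j < r) (hj' : j' < r) (h : i * r + j = i' * r + j') :
    i = i' ∧ j = j' := by
  have hr : 0 < r := by omega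
  rw [Nat.mul_comm i r, Nat.mul_comm i' r] at h
  constructor
  · have h1 := congrArg (fun n => n / r) h
    simp only [Nat.mul_add_div hr, Nat.div_eq_of_lt hj, Nat.div_eq_of_lt hj', Nat.add_zero] at h1
    exact h1
  · have h1 := congrArg (fun n => n % r) h
    simp only [Nat.mul_add_mod, Nat.mod_eq_of_lt hj, Nat.mod_eq_of_lt hj'] at h1
    exact h1

theorem pf_KG : T_KG := by
  intro r V E hE B hcn hdj hT
  refine ⟨fun i j => B (i * r + j), ?_, ?_, ?_, ?_⟩
  · intro i hi j hj
    exact hcn _ (idx_lt hi hj)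
  · intro i hi j hj i' hi' j' hj' hne
    refine hdj _ (idx_lt hi hj) _ (idx_lt hi' hj') fun h => ?_
    obtain ⟨h1, h2⟩ := idx_inj hj hj' h
    rcases hne with h3 | h3
    · exact h3 h1
    · exact h3 h2
  · intro i j hi hj
    refine hT _ (idx_lt (by omega) hj) _ (idx_lt hi hj) fun h => ?_
    have h1 := (idx_inj hj hj h).1
    omega
  · intro i j hi hj
    refine hT _ (idx_lt hi (by omega)) _ (idx_lt hi hj) fun h => ?_
    have h1 := (idx_inj (by omega) hj h).2
    omega

end Pool.Agent.H48.GM
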