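import Pool.Agent.H10.GM.Targets1

/-!
# The step for fewer than `h` neighbours
-/

set_option autoImplicit false

namespace Pool.Agent.H48.GM

open Pool.Agent.H55.GW Pool.Agent.H10.GM

theorem pf_MSA (hEXT : Pool.Agent.H10.GM.T_EXT) : T_MSA := by
  intro V _ E hE h C hPre hlt
  obtain ⟨U, T, hP⟩ := hPre
  obtain ⟨u, hu, hd⟩ := hP.d1
  have hu' := hu
  obtain ⟨huC, v, hv, huv⟩ := hu'
  refine ⟨v, hv, fun C' hC' => ?_⟩
  have hsub : C' ⊆ C \ {v} := hC'.sub
  have hnb : Nb E C' ⊆ Nb E C ∪ {v} := fun w hw => by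
    rcases hC'.nb_sub hE hw with h1 | h1
    · exact Or.inl h1
    · exact Or.inr h1.1
  have hcn : Cn E C' := hC'.cn hE
  have hvC' : v ∉ C' := fun h1 => (hsub h1).2 rfl
  have hvNb : v ∈ Nb E C' := by
    refine ⟨hvC', ?_⟩
    obtain ⟨y, hy⟩ := hcn.1
    obtain ⟨a, b, h1, h2, h3, h4, h5⟩ :=
      (hP.cnC.2 y (hsub hy).1 v hv).enter (T := C'ᶜ) (by simpa using hy) hvC'
    have ha : a ∈ C' := by simpa using h2
    have hb : b = v := by
      by_contra hne
      exact h4 (hC'.absorb ha ⟨h5.left_mem, hne⟩ h3)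
    rw [hb] at h3
    exact ⟨a, ha, hE a v h3⟩
  have huv' : u ≠ v := fun h1 => huC (h1 ▸ hv)
  have hvC : ({v} : Set V) ⊆ C := by
    rintro w rfl
    exact hv
  refine ⟨?_, ?_⟩
  · refine hEXT V E hE C U T C' {v} (fun _ t => if t = 0 then u else v) (fun _ => 1) hP hcn
      (fun w hw => (hsub hw).1) hvC hnb ⟨v, hvNb, rfl⟩ ?_ ?_
    · intro s hs
      have hs' : s = v := hs
      refine ⟨Nat.one_pos, ⟨?_, ?_⟩, ?_, ?_, ?_, ?_, ?_⟩
      · intro t ht
        have ht' : t = 0 := by omega
        subst ht'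
        simpa using huv
      · intro a ha b hb hab
        rcases Nat.le_one_iff_eq_zero_or_eq_one.1 ha with rfl | rfl <;>
          rcases Nat.le_one_iff_eq_zero_or_eq_one.1 hb with rfl | rfl
        · rfl
        · exact absurd (by simpa using hab) huv'
        · exact absurd (by simpa using hab.symm) huv'
        · rfl
      · simpa using hP.nb hu
      · simpa using hs'.symm
      · intro t ht _
        have ht' : t ≠ 0 := by omega
        simp only [ht', if_false]
        exact ⟨hv, hvC'⟩
      · simpa using hd.trans (by norm_num)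
      · intro _
        simpa using hd
    · intro s hs s' hs' hne
      exact absurd ((show s = v from hs).trans (show s' = v from hs').symm) hne
  · have h1 : (Nb E C').ncard ≤ (Nb E C ∪ {v}).ncard :=
      Set.ncard_le_ncard hnb (Set.toFinite _)
    have h2 := Set.ncard_union_le (Nb E C) {v}
    rw [Set.ncard_singleton] at h2
    omega

end Pool.Agent.H48.GM
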