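import Pool.Agent.H53.GM.Targets2
import Pool.Agent.H53.GM.Basic

/-!
# Forbidden coloured patterns (`MP_6ab439_lc`), row FVL: the families of the labellings
-/

set_option autoImplicit false
set_option linter.unusedVariables false

namespace Pool.Agent.H48.GM

open Pool.Agent.H68.BP Pool.Agent.H58.SF Pool.Agent.H53.GC Pool.Agent.H53.GR Pool.Agent.H53.GM
open Classical

section

variable {τ : Sig} {N k : ℕ} {F : Set (Str τ (Fin N))}

theorem vr_pts {L : ℕ} (lb : Fin k → Rg L) (e : Finset (Fin k)) : vr (pts lb e) = e := by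
  ext v
  constructor
  · intro hv
    obtain ⟨x, hx, rfl⟩ := Finset.mem_image.1 hv
    obtain ⟨w, hw, rfl⟩ := Finset.mem_image.1 hx
    exact hw
  · intro hv
    exact Finset.mem_image.2 ⟨(v, lb v), Finset.mem_image.2 ⟨v, hv, rfl⟩, rfl⟩

theorem kd_congr {L : ℕ} (I : Finset (Fin k)) (a₀ : Ty τ N (Fin k)) (r : Fin 3)
    (lb : Fin k → Rg L) (p p' : Fin 6 → Ty τ N (Fin k)) (e : Finset (Fin k))
    (h : ∀ c, rse (e ∪ I) (p c) = rse (e ∪ I) (p' c)) :
    kd I a₀ r lb p e = kd I a₀ r lb p' e := by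
  unfold kd rsG
  rw [vr_pts]
  have h1 : (fun c => rse (e ∪ I) (p c)) = fun c => rse (e ∪ I) (p' c) := funext h
  have h2 : (fun d : Fin 2 => rse (e ∪ I) (p (ix r d))) = fun d => rse (e ∪ I) (p' (ix r d)) :=
    funext fun d => h (ix r d)
  simp only [h1, h2]

theorem rse_empty {P : Ty τ N (Fin k)} (hk : 1 ≤ k) (hP : Mx F P) :
    rse (∅ : Finset (Fin k)) P = {q | RC q.1 q.2 ∧ ∀ v, q.2 v = none} := by
  obtain ⟨⟨W, hW, M, a, hM, rfl⟩, -⟩ := hP
  ext q
  constructor
  · rintro ⟨⟨h1, f, h2, h3⟩, h4⟩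
    refine ⟨h1, fun v => ?_⟩
    cases hv : q.2 v with
    | none => rfl
    | some i => exact absurd (h4 v i hv) (Finset.notMem_empty i)
  · rintro ⟨h1, h2⟩
    refine ⟨⟨h1, fun _ => a ⟨0, hk⟩, ?_, ?_⟩, ?_⟩
    · intro l z hz
      exfalso
      obtain ⟨v, -, hv⟩ := h1 Set.univ (fun _ _ _ _ i => Set.mem_univ _)
        ⟨l, z, hz, fun i => Set.mem_univ _⟩
      exact hv (h2 v)
    · intro v i hv
      rw [h2 v] at hv
      exact absurd hv (by simp)
    · intro v i hv
      rw [h2 v] at hv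
      exact absurd hv (by simp)

theorem pat_self {X : Type} (r : Fin 3) (x : X) : (fun _ => x) = pat r x x := by
  funext c
  rw [pat_eq_ite]
  split <;> rfl

end

theorem pf_FVL : Pool.Agent.H53.GM.T_FVL := by
  intro τ σ N F Al hF k hk I νf hν r lb hreg hadj
  refine ⟨?_, ?_⟩
  · intro l p hp hbin
    by_cases hex : ∃ e1 : So N k, I ⊂ e1.1
    swap
    · have h1 : (fun e => vl F I νf r lb e (fun c => p c e)) = p 0 := by
        funext e
        unfold vl
        rw [if_neg]
        rintro ⟨h, -⟩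
        exact hex ⟨e, h⟩
      rw [h1]
      exact hp.1 0
    obtain ⟨e1, he1⟩ := hex
    -- full types
    have hQ : ∃ Q : Fin 6 → Ty τ N (Fin k), (∀ c, Mx F (Q c)) ∧
        (∀ c (e : So N k), p c e = rse e.1 (Q c)) ∧
        ∀ q, l = some q → ∀ c, hasl Al q.1 q.2 (Q c) := by
      cases l with
      | none =>
        have h1 : ∀ c, ∃ P, Mx F P ∧ ∀ e : So N k, p c e = rse e.1 P := fun c => hp.1 c
        choose Q hQ1 hQ2 using h1
        exact ⟨Q, hQ1, hQ2, fun q hq => absurd hq (by simp)⟩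
      | some q =>
        have h1 : ∀ c, ∃ P, Mx F P ∧ hasl Al q.1 q.2 P ∧ ∀ e : So N k, p c e = rse e.1 P :=
          fun c => hp.1 c
        choose Q hQ1 hQ2 hQ3 using h1
        refine ⟨Q, hQ1, hQ3, fun q' hq' c => ?_⟩
        obtain rfl : q = q' := Option.some.inj hq'
        exact hQ2 c
    obtain ⟨Q, hQ1, hQ2, hQ3⟩ := hQ
    have hP : ∃ P : Fin 6 → Ty τ N (Fin k), (∀ c, Mx F (P c)) ∧
        (∀ c (e : So N k), p c e = rse e.1 (P c)) ∧
        (∀ q, l = some q → ∀ c, hasl Al q.1 q.2 (P c)) ∧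
        ((∀ v, v ∉ I → lb v = none) ∨ ∃ P1 P2, P = pat r P1 P2) := by
      rcases hbin with h | ⟨x, y, hxy⟩
      · exact ⟨Q, hQ1, hQ2, hQ3, Or.inl h⟩
      · have key : ∀ c, ∃ d, pat r (Q (ix r 0)) (Q (ix r 1)) c = Q d ∧ p c = p d := by
          intro c
          have hx : p (ix r 0) = x := by
            rw [hxy]
            exact (pat_ix r x y).1
          have hy : p (ix r 1) = y := by
            rw [hxy]
            exact (pat_ix r x y).2
          have e1 := pat_eq_ite r (Q (ix r 0)) (Q (ix r 1)) c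
          have e2 := pat_eq_ite r x y c
          rw [← hxy] at e2
          by_cases h0 : pat r (0 : Fin 6) 1 c = 0
          · rw [if_pos h0] at e1 e2
            exact ⟨ix r 0, e1, e2.trans hx.symm⟩
          · rw [if_neg h0] at e1 e2
            exact ⟨ix r 1, e1, e2.trans hy.symm⟩
        refine ⟨pat r (Q (ix r 0)) (Q (ix r 1)), ?_, ?_, ?_, Or.inr ⟨_, _, rfl⟩⟩
        · intro c
          obtain ⟨d, h1, h2⟩ := key c
          rw [h1]
          exact hQ1 d
        · intro c e
          obtain ⟨d, h1, h2⟩ := key c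
          rw [h1, h2]
          exact hQ2 d e
        · intro q hq c
          obtain ⟨d, h1, h2⟩ := key c
          rw [h1]
          exact hQ3 q hq d
    obtain ⟨P, hP1, hP2, hP3, hP4⟩ := hP
    -- the common value at the constants
    have hI : ∀ c, rse I (P c) = rse I (P 0) := by
      intro c
      rcases I.eq_empty_or_nonempty with h0 | h0
      · rw [h0, rse_empty hk (hP1 c), rse_empty hk (hP1 0)]
      · have hcard : I.card ≤ N := (Finset.card_le_card he1.1).trans e1.2.2
        have h1 := hp.2 ⟨I, h0, hcard⟩ (fun h => (ssubset_irrefl I) h) c 0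
        rw [hP2, hP2] at h1
        exact h1
    obtain ⟨Ps, hs1, hs2, hs3, hs4⟩ := hν (rse I (P 0)) ⟨P 0, hP1 0, rfl⟩ r lb P
      ⟨fun c => ⟨hP1 c, hI c⟩, hreg, hadj, hP4⟩
    have hval : ∀ e : So N k, vl F I νf r lb e (fun c => p c e) = rse e.1 Ps := by
      intro e
      by_cases he : I ⊂ e.1
      · have hu : e.1 \ I ∪ I = e.1 := Finset.sdiff_union_of_subset he.1
        have hcond : I ⊂ e.1 ∧ ∃ p' : Fin 6 → Ty τ N (Fin k),
            (∀ c, Mx F (p' c) ∧ rse e.1 (p' c) = p c e) ∧ ∀ c, rse I (p' c) = rse I (p' 0) :=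
          ⟨he, P, fun c => ⟨hP1 c, (hP2 c e).symm⟩, hI⟩
        unfold vl
        rw [if_pos hcond]
        have h1 : rse I (p 0 e) = rse I (P 0) := by
          rw [hP2, rse_rse he.1]
        have h2 : kd I (rse I (P 0)) r lb (fun c => p c e) (e.1 \ I) =
            kd I (rse I (P 0)) r lb P (e.1 \ I) := by
          refine kd_congr I _ r lb _ _ _ fun c => ?_
          rw [hu, hP2, rse_rse (Finset.Subset.refl _)]
        rw [h1, h2]
        have h3 := hs2 (e.1 \ I) Finset.sdiff_disjoint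
          ((Finset.card_le_card Finset.sdiff_subset).trans e.2.2)
        rw [hu] at h3
        exact h3.symm
      · unfold vl
        rw [if_neg (fun h => he h.1)]
        change p 0 e = _
        rw [hP2]
        refine (hs3 e.1 (P 0) e.2.2 (hP1 0) fun c => ?_).symm
        rw [← hP2, ← hP2]
        exact hp.2 e he c 0
    cases l with
    | none => exact ⟨Ps, hs1, hval⟩
    | some q => exact ⟨Ps, hs1, hs4 q.1 q.2 (hP3 q rfl), hval⟩
  · intro e t
    unfold vl
    split_ifs with hc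
    · obtain ⟨he, p, hp, -⟩ := hc
      have hu : e.1 \ I ∪ I = e.1 := Finset.sdiff_union_of_subset he.1
      have hp1 : Mx F (p 0) := (hp 0).1
      have hp2 : rse e.1 (p 0) = t := (hp 0).2
      have hI : rse I (p 0) = rse I t := by
        rw [← hp2, rse_rse he.1]
      obtain ⟨Ps, hs1, hs2, hs3, -⟩ := hν (rse I t) ⟨p 0, hp1, hI⟩ r lb (fun _ => p 0)
        ⟨fun c => ⟨hp1, hI⟩, hreg, hadj, Or.inr ⟨p 0, p 0, pat_self r (p 0)⟩⟩
      have h3 := hs2 (e.1 \ I) Finset.sdiff_disjoint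
        ((Finset.card_le_card Finset.sdiff_subset).trans e.2.2)
      rw [hu] at h3
      have h4 := hs3 e.1 (p 0) e.2.2 hp1 (fun _ => rfl)
      have h2 : kd I (rse I t) r lb (fun _ => t) (e.1 \ I) =
          kd I (rse I t) r lb (fun _ => p 0) (e.1 \ I) := by
        refine kd_congr I _ r lb _ _ _ fun c => ?_
        rw [hu, ← hp2, rse_rse (Finset.Subset.refl _)]
      change νf (rse I t) (pts lb (e.1 \ I)) (kd I (rse I t) r lb (fun _ => t) (e.1 \ I)) = t
      rw [h2, ← h3, h4, hp2]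
    · rfl

end Pool.Agent.H48.GM
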