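import Pool.Agent.H53.GM.Targets2

/-!
# Forbidden coloured patterns (`MP_6ab439_lc`), row GLU: the gluing lemma
-/

set_option autoImplicit false
set_option linter.unusedVariables false

namespace Pool.Agent.H48.GM

open Pool.Agent.H68.BP Pool.Agent.H58.SF Pool.Agent.H53.GC Pool.Agent.H53.GR Pool.Agent.H53.GM
open Classical

theorem pf_GLU : Pool.Agent.H53.GM.T_GLU := by
  intro τ N W W' I Mi B K M M' φ D f hB hM hMB hf hI
  choose hh hh1 hh2 using hI
  let h : Fin N → W' := fun v =>
    if f v ∈ K then φ (f v) else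
      if hx : ∃ i, f v ∈ B i then hh hx.choose v else φ (f v)
  have key : ∀ i v, f v ∈ B i → h v = hh i v := by
    intro i v hv
    by_cases hK : f v ∈ K
    · have e1 : h v = φ (f v) := if_pos hK
      rw [e1, hh2 i v hK hv]
    · have hx : ∃ i, f v ∈ B i := ⟨i, hv⟩
      have e1 : h v = hh hx.choose v := by
        change (if f v ∈ K then φ (f v) else
          if hx : ∃ i, f v ∈ B i then hh hx.choose v else φ (f v)) = _
        rw [if_neg hK, dif_pos hx]
      have e2 : hx.choose = i := by
        by_contra hne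
        exact hK (hB hx.choose i (f v) hx.choose_spec hv hne)
      rw [e1, e2]
  refine ⟨h, ?_, fun v hv => if_pos hv⟩
  intro l z hz
  obtain ⟨i, hi⟩ := hM l _ (hf l z hz)
  have h1 := hh1 i l z ⟨hz, hi⟩
  have h2 : (fun a => h (z a)) = fun a => hh i (z a) := by
    funext a
    exact key i (z a) (hMB i l _ hi a)
  have h3 : M' l (fun a => hh i (z a)) := h1
  rw [← h2] at h3
  exact h3

end Pool.Agent.H48.GM
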